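import Pool.Agent.W275.FML.All

/-!
# MP_a60a76_nt: 100% of the elliptic curves have no congruence with any curve of smaller height

For 100% of the elliptic curves `E` over `ℚ`, ordered by height: if `E[n] ≅ E'[n]` for some `n ≥ 2`, then
`H(E') > H(E)^(1-η)`; twists `E'` of `E` are not excepted, and there is no condition on `n`.

Proof.  Let `q ≥ 5` be a prime which divides `D = 4A³ + 27B²` exactly once, `l` a prime, and suppose
`E[l] ≅ E'[l]` and `q ∤ D'`.  If `l ≠ q`, the inertia group at `q` acts trivially on `E[l]`; over a field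
in which `q` is unramified no point reduces to the node of `E` modulo `q`, so `E[l]` has at most `l`
points, but it has at least `l²`.  The case `l = q` is in the files `W275/FML`: it compares the
ramification of `E[q]` and of `E'[q]` at `q`.  So `q ∣ D'`.  For almost all curves the product of these
`q` is almost as large as `D` (sieve for square divisors of `4A³ + 27B²`), so `D'` is as large.

Parts were proved by many helpers (subtasks FM and FML of helper275, directories `W*/FM`, `W*/FML`);
the library `H901R3.MS` of places is used.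
-/

set_option autoImplicit false

open WeierstrassCurve Filter Topology
open scoped Classical

namespace Pool.Agent.Results.MP_a60a76_nt.AllSmallerCurves

/-- The curve `y² = x³ + Ax + B` over `ℚ`. -/
def curve (A B : ℤ) : WeierstrassCurve ℚ := ⟨0, 0, 0, A, B⟩

/-- The group of its points over the algebraic closure of `ℚ`. -/
abbrev Points (A B : ℤ) : Type := ((curve A B).baseChange (AlgebraicClosure ℚ)).toAffine.Point

/-- The action of an automorphism `σ` of the algebraic closure on the points. -/
noncomputable def galois (A B : ℤ) (σ : AlgebraicClosure ℚ ≃ₐ[ℚ] AlgebraicClosure ℚ) :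
    Points A B →+ Points A B :=
  WeierstrassCurve.Affine.Point.map
    (σ : AlgebraicClosure ℚ →ₐ[ℚ] AlgebraicClosure ℚ)

/-- The `n`-torsion of `y² = x³ + Ax + B` and that of `y² = x³ + A'x + B'` are isomorphic as Galois
modules: some map between the groups of points restricts to a bijective additive map of the
`n`-torsion which commutes with the Galois group. -/
def Congruent (n : ℕ) (A B A' B' : ℤ) : Prop :=
  ∃ f : Points A B → Points A' B', (∀ P Q, n • P = 0 → n • Q = 0 → f (P + Q) = f P + f Q) ∧
    Set.BijOn f {P | n • P = 0} {Q | n • Q = 0} ∧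
    ∀ (σ : AlgebraicClosure ℚ ≃ₐ[ℚ] AlgebraicClosure ℚ) (P : Points A B), n • P = 0 →
      f (galois A B σ P) = galois A' B' σ (f P)

/-- The equations with `|A| ≤ T²` and `|B| ≤ T³`. -/
def Box (T : ℕ) : Set (ℤ × ℤ) := {p | |p.1| ≤ (T : ℤ) ^ 2 ∧ |p.2| ≤ (T : ℤ) ^ 3}

/-- The discriminant, up to the factor `-16`. -/
def disc (A B : ℤ) : ℤ := 4 * A ^ 3 + 27 * B ^ 2

/-- The height of `y² = x³ + Ax + B`. -/
def height (A B : ℤ) : ℤ := max (4 * |A| ^ 3) (27 * B ^ 2)

/-- `E : y² = x³ + Ax + B` has no congruence, modulo any `n ≥ 2`, with a curve `E'` of height at most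
`H(E)^(1-η)`. -/
def NoSmaller (η : ℝ) (A B : ℤ) : Prop :=
  ∀ A' B' : ℤ, disc A' B' ≠ 0 → (height A' B' : ℝ) ≤ (height A B : ℝ) ^ (1 - η) →
    ∀ n : ℕ, 2 ≤ n → ¬ Congruent n A B A' B'

/-- **Frey-Mazur for 100% of the curves against all smaller curves, at every level.**  For every
`η > 0` the proportion of the equations in the box of size `T` which define elliptic curves without
congruences with smaller curves, in the sense of `NoSmaller η`, tends to `1`. -/
theorem result (η : ℝ) (hη : 0 < η) :
    Tendsto (fun T : ℕ =>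
      (({p | p ∈ Box T ∧ disc p.1 p.2 ≠ 0 ∧ NoSmaller η p.1 p.2} : Set (ℤ × ℤ)).ncard : ℝ) /
      ((Box T).ncard : ℝ)) atTop (𝓝 1) := by
  have h' := Pool.Agent.W275.FM.lim_one
    {p | ∃ (A' B' : ℤ) (n : ℕ), Pool.Agent.W275.FM.dsc A' B' ≠ 0 ∧
      2 ≤ n ∧ Pool.Agent.W275.FM.TorIso n p.1 p.2 A' B' ∧
      (Pool.Agent.W275.FM.hgt A' B' : ℝ) ≤ (Pool.Agent.W275.FM.hgt p.1 p.2 : ℝ) ^ (1 - η)}
    (fun ε hε => Pool.Agent.W275.FML.thm_B3 η ε hη hε)
  refine h'.congr fun T => ?_
  congr 2
  congr 1
  ext p
  constructor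
  · rintro ⟨g1, g2, g3⟩
    exact ⟨g1, g2, fun A' B' k1 k2 n k3 k4 => g3 ⟨A', B', n, k1, k3, k4, k2⟩⟩
  · rintro ⟨g1, g2, g3⟩
    exact ⟨g1, g2, fun ⟨A', B', n, k1, k3, k4, k2⟩ => g3 A' B' k1 k2 n k3 k4⟩

end Pool.Agent.Results.MP_a60a76_nt.AllSmallerCurves
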