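import Pool.Agent.W275.FM.Pairs

/-!
# MP_a60a76_nt: the Frey-Mazur conjecture for 100% of the pairs of elliptic curves

For 100% of the pairs `(E, E')` of elliptic curves over `ℚ`, in boxes of independent sizes, the
Galois modules `E[n]` and `E'[n]` are not isomorphic for all `n ≥ 2` at the same time.

Proof.  Let `q ≥ 5`, `q ∤ n`, be a prime which divides `4A³ + 27B²` exactly once.  If `E[n] ≅ E'[n]` and
`E'` has good reduction at `q`, the inertia group at `q` acts trivially on `E[n]`; over a field in which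
`q` is unramified no point reduces to the node of `E` modulo `q`, so `E[n]` has at most `n` points, but
it has at least `n²`.  A sieve gives two such `q` for 100% of the pairs, and one of them does not divide
the smallest prime factor of `n`.

Parts were proved by helpers 21, 45, 61, 67, 125, 135, 202, 239, 290, 303, 308, 342, 479, 490, 496,
565, 696, 800, 816, 822 (subtasks of helper275); the library `H901R3.MS` of places is used.
-/

set_option autoImplicit false

open WeierstrassCurve Filter Topology
open scoped Classical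

namespace Pool.Agent.Results.MP_a60a76_nt.AlmostAllPairs

/-- The curve `y² = x³ + Ax + B` over `ℚ`. -/
def curve (A B : ℤ) : WeierstrassCurve ℚ := ⟨0, 0, 0, A, B⟩

/-- The group of its points over the algebraic closure of `ℚ`. -/
abbrev Points (A B : ℤ) : Type := ((curve A B).baseChange (AlgebraicClosure ℚ)).toAffine.Point

/-- The action of an automorphism `σ` of the algebraic closure on the points. -/
noncomputable def galois (A B : ℤ) (σ : AlgebraicClosure ℚ ≃ₐ[ℚ] AlgebraicClosure ℚ) :
    Points A B →+ Points A B :=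
  WeierstrassCurve.Affine.Point.map
    (σ : AlgebraicClosure ℚ →ₐ[ℚ] AlgebraicClosure ℚ)

/-- The `n`-torsion of `y² = x³ + Ax + B` and that of `y² = x³ + A'x + B'` are isomorphic as Galois
modules: some map between the groups of points restricts to a bijective additive map of the
`n`-torsion which commutes with the Galois group. -/
def Congruent (n : ℕ) (A B A' B' : ℤ) : Prop :=
  ∃ f : Points A B → Points A' B', (∀ P Q, n • P = 0 → n • Q = 0 → f (P + Q) = f P + f Q) ∧
    Set.BijOn f {P | n • P = 0} {Q | n • Q = 0} ∧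
    ∀ (σ : AlgebraicClosure ℚ ≃ₐ[ℚ] AlgebraicClosure ℚ) (P : Points A B), n • P = 0 →
      f (galois A B σ P) = galois A' B' σ (f P)

/-- The equations with `|A| ≤ T²` and `|B| ≤ T³`. -/
def Box (T : ℕ) : Set (ℤ × ℤ) := {p | |p.1| ≤ (T : ℤ) ^ 2 ∧ |p.2| ≤ (T : ℤ) ^ 3}

/-- The pairs of elliptic curves, the first in the box of size `T`, the second in that of size `U`,
which are `n`-congruent for no `n ≥ 2`. -/
def GoodPairs (T U : ℕ) : Set ((ℤ × ℤ) × (ℤ × ℤ)) :=
  {p | p.1 ∈ Box T ∧ p.2 ∈ Box U ∧ 4 * p.1.1 ^ 3 + 27 * p.1.2 ^ 2 ≠ 0 ∧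
    4 * p.2.1 ^ 3 + 27 * p.2.2 ^ 2 ≠ 0 ∧
    ∀ n : ℕ, 2 ≤ n → ¬ Congruent n p.1.1 p.1.2 p.2.1 p.2.2}

/-- **Frey-Mazur for 100% of the pairs.**  The proportion of the pairs of equations in the boxes of
sizes `T` and `U` which define elliptic curves congruent modulo no `n ≥ 2` tends to `1` as `T` and `U`
tend to infinity, independently. -/
theorem result :
    Tendsto (fun t : ℕ × ℕ => ((GoodPairs t.1 t.2).ncard : ℝ) /
      (((Box t.1).ncard : ℝ) * ((Box t.2).ncard : ℝ))) atTop (𝓝 1) := by
  refine Pool.Agent.W275.FM.lim_pairs.congr fun t => ?_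
  congr 2
  congr 1
  ext p
  constructor
  · rintro ⟨g1, g2, g3, g4, g5⟩
    exact ⟨g1, g2, g3, g4, fun n hn hc => g5 ⟨n, hn, hc⟩⟩
  · rintro ⟨g1, g2, g3, g4, g5⟩
    exact ⟨g1, g2, g3, g4, fun ⟨n, hn, hc⟩ => g5 n hn hc⟩

end Pool.Agent.Results.MP_a60a76_nt.AlmostAllPairs
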